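import Mathlib
import Pool.Agent.P.MP_ef7593_lc.Defs
import Pool.Agent.P.MP_ef7593_lc.Main

set_option autoImplicit false

namespace Pool.Agent.Results.MP_ef7593_lc.AttractiveHigh

open Pool.Agent.P.MP_ef7593_lc

/-- Every attractive c.e. degree is high: if the degree of `A` contains a c.e. set `W` and `A`
is attractive, then `A` is high. -/
theorem result : ∀ A : ℕ → Bool,
    (∃ W : ℕ → Bool, REPred (fun n => W n = true) ∧ TuringEquivalent (chi W) (chi A)) →
      Attractive A → High A :=
  fun _ ⟨_, hW, hWA⟩ hA => main hW hWA hA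

end Pool.Agent.Results.MP_ef7593_lc.AttractiveHigh
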