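import Pool.Agent.P.MP_ef7593_lc.Conv

set_option autoImplicit false

namespace Pool.Agent.Results.MP_ef7593_lc.AttractiveIffDominating

open Pool.Agent.P.MP_ef7593_lc

/-- A c.e. degree is attractive if and only if it is almost everywhere dominating. -/
theorem result : ∀ A : ℕ → Bool,
    (∃ W : ℕ → Bool, REPred (fun n => W n = true) ∧ TuringEquivalent (chi W) (chi A)) →
      (Attractive A ↔ AEDominating A) :=
  fun _ ⟨_, hW, hWA⟩ => ⟨dom_of_attractive hW hWA, attractive_of_dom⟩

end Pool.Agent.Results.MP_ef7593_lc.AttractiveIffDominating
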