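import Pool.Agent.P.MP_ef7593_lc.DnC

set_option autoImplicit false

namespace Pool.Agent.Results.MP_ef7593_lc.Classification

open Pool.Agent.P.MP_ef7593_lc

/-- A set is attractive if and only if it is almost everywhere dominating or computes a bounded
function that avoids the values computed by almost every oracle. -/
theorem result : ∀ A : ℕ → Bool, Attractive A ↔ AEDominating A ∨ AEAvoiding A :=
  Dn.classification

end Pool.Agent.Results.MP_ef7593_lc.Classification
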